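import Pool.Agent.helper17.MS.S2
import Pool.Agent.helper43.MS.Bil
import Pool.Agent.helper23.MS.R1

/-!
# Module R2: the theorem of Rellich on compact subsets of `M`
-/

open Bundle Manifold MeasureTheory Set Filter Topology
open scoped ContDiff ENNReal

namespace Pool.Agent.helper17.MS

open Pool.Agent.helper43.MS

section algebra

variable {m : ℕ}

theorem bil_cs {G : Matrix (Fin m) (Fin m) ℝ} (hG : G.PosDef) (u v : E m) :
    bil G u v ^ 2 ≤ bil G u u * bil G v v := by
  by_cases hv : v = 0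
  · simp [hv, bil_zero_right]
  have hp := bil_pos hG hv
  set r : ℝ := (√(bil G v v))⁻¹ with hr
  have hr2 : r ^ 2 * bil G v v = 1 := by
    rw [hr, inv_pow, Real.sq_sqrt hp.le]
    exact inv_mul_cancel₀ hp.ne'
  have ho : IsOrthoFamily G (fun _ : Fin 1 => r • v) := by
    rw [isOrthoFamily_iff]
    intro k l
    rw [Subsingleton.elim k l, if_pos rfl, bil_smul_left, bil_smul_right]
    linarith
  have hb := bessel hG ho u
  simp only [Finset.univ_unique, Finset.sum_const, Finset.card_singleton, one_smul] at hb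
  rw [bil_smul_right] at hb
  have h1 : bil G u v ^ 2 = (r * bil G u v) ^ 2 * bil G v v := by
    calc bil G u v ^ 2 = bil G u v ^ 2 * (r ^ 2 * bil G v v) := by rw [hr2, mul_one]
      _ = _ := by ring
  rw [h1]
  exact mul_le_mul_of_nonneg_right hb hp.le

theorem sum_sq_le_inv {G : Matrix (Fin m) (Fin m) ℝ} (hG : G.PosDef) (ξ : Fin m → ℝ) :
    ∑ i, ξ i ^ 2 ≤ (∑ i, G i i) * ∑ i, ∑ j, G⁻¹ i j * ξ i * ξ j := by
  set η : E m := WithLp.toLp 2 (G⁻¹.mulVec ξ) with hη
  have hηi : ∀ i, η i = G⁻¹.mulVec ξ i := fun i => rfl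
  have hξ : G.mulVec (G⁻¹.mulVec ξ) = ξ := by
    rw [Matrix.mulVec_mulVec, Matrix.mul_nonsing_inv _ (Ne.isUnit hG.det_pos.ne'),
      Matrix.one_mulVec]
  have h1 : ∀ i, bil G (bv i) η = ξ i := by
    intro i
    rw [bil_eq_dotProduct]
    have : (fun j => (bv i : E m) j) = Pi.single i (1 : ℝ) := by
      funext j
      simp [bv, PiLp.single_apply, Pi.single_apply]
    rw [this, single_one_dotProduct]
    have h2 : (fun j => η j) = G⁻¹.mulVec ξ := by funext j; exact hηi j
    rw [h2, hξ]
  have h2 : ∀ i, bil G (bv i) (bv i) = G i i := by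
    intro i
    rw [bil_eq_dotProduct]
    have : (fun j => (bv i : E m) j) = Pi.single i (1 : ℝ) := by
      funext j
      simp [bv, PiLp.single_apply, Pi.single_apply]
    rw [this, single_one_dotProduct, Matrix.mulVec_single_one]
    rfl
  have h3 : bil G η η = ∑ i, ∑ j, G⁻¹ i j * ξ i * ξ j := by
    rw [bil_eq_dotProduct]
    have h2 : (fun j => η j) = G⁻¹.mulVec ξ := by funext j; exact hηi j
    rw [h2, hξ]
    simp only [dotProduct, Matrix.mulVec, Finset.sum_mul]
    refine Finset.sum_congr rfl fun i _ => Finset.sum_congr rfl fun j _ => ?_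
    ring
  rw [← h3, Finset.sum_mul]
  refine Finset.sum_le_sum fun i _ => ?_
  have := bil_cs hG (bv i) η
  rw [h1, h2] at this
  exact this

/-- the norm of the derivative is bounded by the partial derivatives -/
theorem norm_fderiv_sq_le (f : E m → ℝ) (x : E m) :
    ‖fderiv ℝ f x‖ ^ 2 ≤ m * ∑ i, pd i f x ^ 2 := by
  have h1 : ‖fderiv ℝ f x‖ ≤ ∑ i, |pd i f x| := by
    apply ContinuousLinearMap.opNorm_le_bound _ (Finset.sum_nonneg fun i _ => abs_nonneg _)
    intro v
    rw [fderiv_apply_eq_sum, Finset.sum_mul]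
    refine (norm_sum_le _ _).trans (Finset.sum_le_sum fun i _ => ?_)
    rw [Real.norm_eq_abs, abs_mul, mul_comm]
    exact mul_le_mul_of_nonneg_left (abs_coord_le v i) (abs_nonneg _)
  have h2 : (∑ i, |pd i f x|) ^ 2 ≤ m * ∑ i, pd i f x ^ 2 := by
    have := sq_sum_le_card_mul_sum_sq (s := (Finset.univ : Finset (Fin m)))
      (f := fun i => |pd i f x|)
    simpa using this
  exact (pow_le_pow_left₀ (norm_nonneg _) h1 2).trans h2

end algebra

section main

variable {m n : ℕ} {M : Type*} [TopologicalSpace M] [T2Space M] [SecondCountableTopology M]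
  [ChartedSpace (E m) M] [IsManifold 𝓘(ℝ, E m) ∞ M] [MeasurableSpace M] [BorelSpace M]
  {N : Type*} [TopologicalSpace N] [ChartedSpace (E n) N] [IsManifold 𝓘(ℝ, E n) ∞ N]
  [RiemannianBundle (fun q : N => TangentSpace 𝓘(ℝ, E n) q)]
  [IsContMDiffRiemannianBundle 𝓘(ℝ, E n) ∞ (E n) (fun q : N => TangentSpace 𝓘(ℝ, E n) q)]

variable (m n) in
/-- the unit ball of the form norm -/
def uball (φ : M → N) (μ : Measure M) : Set (M → ℝ) :=
  {u | IsTest m u ∧ (∫ p, u p ^ 2 ∂μ) + dirichlet m n φ μ u u ≤ 1}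

/-- transfer of an integral to the manifold -/
theorem int_le {φ : M → N} (h : IsImm m n φ) {μ : Measure M} (hμ : IsRiemVolume m n φ μ) (p0 : M)
    {K : Set (E m)} (hK : IsCompact K) (hKt : K ⊆ (chartAt (E m) p0).target)
    {G : E m → ℝ} (hG : Continuous G) (hG0 : ∀ x ∉ K, G x = 0) {g : M → ℝ}
    (hg : Integrable g μ) (hg0 : ∀ p, 0 ≤ g p)
    (hle : ∀ x ∈ K, G x ≤ g ((chartAt (E m) p0).symm x) * √((metricM m n φ p0 x).det)) :
    ∫ x, G x ≤ ∫ p, g p ∂μ := by
  rw [← setIntegral_eq_integral_of_forall_compl_eq_zero (s := K) hG0]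
  calc ∫ x in K, G x
      ≤ ∫ x in K, g ((chartAt (E m) p0).symm x) * √((metricM m n φ p0 x).det) := by
        apply setIntegral_mono_on (hG.continuousOn.integrableOn_compact hK) ?_ hK.measurableSet hle
        rw [← hμ.integrableOn_iff h p0 hK.measurableSet hKt]
        exact hg.integrableOn
    _ = ∫ p in (chartAt (E m) p0).symm '' K, g p ∂μ :=
        (hμ.setIntegral h p0 hK.measurableSet hKt g).symm
    _ ≤ ∫ p, g p ∂μ := setIntegral_le_integral hg (ae_of_all _ hg0)

theorem contDiff_cut {x0 : E m} (b : ContDiffBump x0) {Ω : Set (E m)} (hΩ : IsOpen Ω)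
    (hb : Metric.closedBall x0 b.rOut ⊆ Ω) {w : E m → ℝ} (hw : ContDiffOn ℝ 1 w Ω) :
    ContDiff ℝ 1 (fun x => b x * w x) := by
  rw [contDiff_iff_contDiffAt]
  intro x
  by_cases hx : x ∈ Ω
  · exact b.contDiffAt.mul (hw.contDiffAt (hΩ.mem_nhds hx))
  · have h1 : x ∉ tsupport b := by
      rw [b.tsupport_eq]
      exact fun h => hx (hb h)
    have h2 : (fun x => b x * w x) =ᶠ[𝓝 x] fun _ => 0 := by
      rw [notMem_tsupport_iff_eventuallyEq] at h1
      filter_upwards [h1] with y hy
      simp [hy]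
    exact contDiffAt_const.congr_of_eventuallyEq h2

theorem sq_int_test {φ : M → N} (h : IsImm m n φ) {μ : Measure M} (hμ : IsRiemVolume m n φ μ)
    {u : M → ℝ} (hu : IsTest m u) : Integrable (fun p => u p ^ 2) μ := by
  have hlf := hμ.isLocallyFinite h
  exact (memLp_test hu).integrable_sq

/-- the local classification -/
theorem local_class {φ : M → N} (h : IsImm m n φ) {μ : Measure M}
    (hμ : IsRiemVolume m n φ μ) (p0 : M) :
    ∃ W : Set M, IsOpen W ∧ p0 ∈ W ∧ ∀ ε : ℝ, 0 < ε → ∃ c : (M → ℝ) → (E m → ℝ),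
      (c '' uball m n φ μ).Finite ∧ ∀ u ∈ uball m n φ μ, ∀ v ∈ uball m n φ μ, c u = c v →
        ∫ p in W, (u p - v p) ^ 2 ∂μ ≤ ε := by
  classical
  have hlf := hμ.isLocallyFinite h
  set e := chartAt (E m) p0 with he
  set x0 := e p0 with hx0
  have hx0t : x0 ∈ e.target := e.map_source (mem_chart_source _ p0)
  obtain ⟨ρ, hρ, hρt⟩ := Metric.nhds_basis_closedBall.mem_iff.1 (e.open_target.mem_nhds hx0t)
  let b : ContDiffBump x0 := ⟨ρ / 2, ρ, half_pos hρ, half_lt_self hρ⟩
  have hbout : b.rOut = ρ := rfl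
  have hbin : b.rIn = ρ / 2 := rfl
  have hK' : IsCompact (Metric.closedBall x0 ρ) := isCompact_closedBall x0 ρ
  have hK'ne : (Metric.closedBall x0 ρ).Nonempty := ⟨x0, Metric.mem_closedBall_self hρ.le⟩
  -- the volume density
  have hdc : ContinuousOn (fun x => √((metricM m n φ p0 x).det)) (Metric.closedBall x0 ρ) :=
    (continuousOn_det_metricM h p0).mono hρt
  obtain ⟨c0, hc0, hc0le⟩ : ∃ c0 : ℝ, 0 < c0 ∧ ∀ x ∈ Metric.closedBall x0 ρ,
      c0 ≤ √((metricM m n φ p0 x).det) := by
    obtain ⟨xm, hxm, hmin⟩ := hK'.exists_isMinOn hK'ne hdc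
    exact ⟨_, Real.sqrt_pos.2 (metricM_posDef h (hρt hxm)).det_pos, fun x hx => hmin hx⟩
  obtain ⟨D, hD, hDle⟩ : ∃ D : ℝ, 0 < D ∧ ∀ x ∈ Metric.closedBall x0 ρ,
      √((metricM m n φ p0 x).det) ≤ D := by
    obtain ⟨xm, hxm, hmax⟩ := hK'.exists_isMaxOn hK'ne hdc
    exact ⟨_, Real.sqrt_pos.2 (metricM_posDef h (hρt hxm)).det_pos, fun x hx => hmax hx⟩
  -- the trace
  obtain ⟨τ, hτ0, hτ⟩ : ∃ τ : ℝ, 0 ≤ τ ∧ ∀ x ∈ Metric.closedBall x0 ρ,
      ∑ i, metricM m n φ p0 x i i ≤ τ := by
    have htc : ContinuousOn (fun x => ∑ i, metricM m n φ p0 x i i) (Metric.closedBall x0 ρ) :=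
      (continuousOn_finsetSum _ fun i _ => (metricM_contDiffOn h p0 i i).continuousOn).mono hρt
    obtain ⟨xm, hxm, hmax⟩ := hK'.exists_isMaxOn hK'ne htc
    exact ⟨|∑ i, metricM m n φ p0 xm i i|, abs_nonneg _,
      fun x hx => (hmax hx).trans (le_abs_self _)⟩
  -- the derivative of the cut-off
  obtain ⟨B, hB0, hB⟩ : ∃ B : ℝ, 0 ≤ B ∧ ∀ (i : Fin m) (x : E m), |pd i b x| ≤ B := by
    obtain ⟨B, hB⟩ := (b.hasCompactSupport.fderiv ℝ).exists_bound_of_continuous
      ((b.contDiff (n := 1)).continuous_fderiv (by norm_num))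
    refine ⟨|B|, abs_nonneg _, fun i x => ?_⟩
    unfold pd
    calc |fderiv ℝ b x (bv i)| ≤ ‖fderiv ℝ b x‖ * ‖(bv i : E m)‖ := by
          rw [← Real.norm_eq_abs]
          exact ContinuousLinearMap.le_opNorm _ _
      _ = ‖fderiv ℝ b x‖ := by simp [bv]
      _ ≤ |B| := (hB x).trans (le_abs_self _)
  set A1 : ℝ := 2 * m * τ / c0 with hA1
  set A2 : ℝ := 2 * m * (m * B ^ 2) / c0 with hA2
  have hA10 : 0 ≤ A1 := by positivity
  have hA20 : 0 ≤ A2 := by positivity
  set C : ℝ := max c0⁻¹ (A1 + A2) with hC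
  -- the functions in the chart
  have hF : ∀ u ∈ uball m n φ μ, ContDiff ℝ 1 (fun x => b x * u (e.symm x)) := by
    intro u hu
    exact contDiff_cut b e.open_target hρt (contDiffOn_chart one_le_top' (isTest_one hu.1) p0)
  have hFs : ∀ u : M → ℝ, tsupport (fun x => b x * u (e.symm x)) ⊆ Metric.closedBall x0 ρ := by
    intro u
    refine (tsupport_mul_subset_left (f := fun x => b x) (g := fun x => u (e.symm x))).trans ?_
    exact (b.tsupport_eq).subset
  have hFc : ∀ u : M → ℝ, HasCompactSupport (fun x => b x * u (e.symm x)) := by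
    intro u
    exact hK'.of_isClosed_subset (isClosed_tsupport _) (hFs u)
  have hF0 : ∀ (u : M → ℝ) (x : E m), x ∉ Metric.closedBall x0 ρ → b x * u (e.symm x) = 0 := by
    intro u x hx
    exact image_eq_zero_of_notMem_tsupport (f := fun x => b x * u (e.symm x))
      (fun h => hx (hFs u h))
  have hb1 : ∀ (u : M → ℝ) (x : E m), (b x * u (e.symm x)) ^ 2 ≤ u (e.symm x) ^ 2 := by
    intro u x
    rw [mul_pow]
    have h1 : (b x) ^ 2 ≤ 1 := pow_le_one₀ b.nonneg b.le_one
    nlinarith [sq_nonneg (u (e.symm x))]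
  have hbound1 : ∀ u ∈ uball m n φ μ, ∫ x, (b x * u (e.symm x)) ^ 2 ≤ C := by
    intro u hu
    have hui := sq_int_test h hμ hu.1
    have h1 : ∫ x, (b x * u (e.symm x)) ^ 2 ≤ ∫ p, c0⁻¹ * u p ^ 2 ∂μ := by
      apply int_le h hμ p0 hK' hρt ((hF u hu).continuous.pow 2)
        (fun x hx => by
          change (b x * u (e.symm x)) ^ 2 = 0
          rw [hF0 u x hx]
          norm_num) (hui.const_mul _)
        (fun p => by positivity)
      intro x hx
      refine (hb1 u x).trans ?_
      have h2 := hc0le x hx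
      have h3 : c0⁻¹ * u (e.symm x) ^ 2 * c0 = u (e.symm x) ^ 2 := by field_simp
      have h4 : 0 ≤ c0⁻¹ * u (e.symm x) ^ 2 := by positivity
      have h5 := mul_le_mul_of_nonneg_left h2 h4
      rw [h3] at h5
      exact h5
    rw [integral_const_mul] at h1
    have h2 := dirichlet_self_nonneg h μ u
    have h3 : ∫ p, u p ^ 2 ∂μ ≤ 1 := by linarith [hu.2]
    refine h1.trans ((mul_le_of_le_one_right (by positivity) h3).trans (le_max_left _ _))
  have hbound2 : ∀ u ∈ uball m n φ μ, ∫ x, ‖fderiv ℝ (fun x => b x * u (e.symm x)) x‖ ^ 2 ≤ C := by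
    intro u hu
    have hui := sq_int_test h hμ hu.1
    have hgi := integrable_gradInner h hμ (isTest_one hu.1) (isTest_one hu.1) hu.1.2
    have h1 : ∫ x, ‖fderiv ℝ (fun x => b x * u (e.symm x)) x‖ ^ 2 ≤
        ∫ p, (A1 * gradInner m n φ u u p + A2 * u p ^ 2) ∂μ := by
      apply int_le h hμ p0 hK' hρt (((hF u hu).continuous_fderiv (by norm_num)).norm.pow 2) ?_
        ((hgi.const_mul _).add (hui.const_mul _))
        (fun p => add_nonneg (mul_nonneg hA10 (gradInner_self_nonneg h u p)) (by positivity)) ?_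
      · intro x hx
        have h2 : x ∉ tsupport (fun x => b x * u (e.symm x)) := fun h => hx (hFs u h)
        have h3 : fderiv ℝ (fun x => b x * u (e.symm x)) x = 0 := by
          rw [notMem_tsupport_iff_eventuallyEq] at h2
          rw [h2.fderiv_eq]
          simp
        change ‖fderiv ℝ (fun x => b x * u (e.symm x)) x‖ ^ 2 = 0
        rw [h3]
        simp
      · intro x hx
        have hxt := hρt hx
        have hud : DifferentiableAt ℝ (u ∘ e.symm) x :=
          ((contDiffOn_chart one_le_top' (isTest_one hu.1) p0).contDiffAt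
            (e.open_target.mem_nhds hxt)).differentiableAt (by norm_num)
        have hbd : DifferentiableAt ℝ b x := (b.contDiff (n := 1)).differentiable (by norm_num) x
        have hgr := gradInner_chart h (p := p0) (x := x) hxt (u := u) (v := u)
          (mdiff_at (isTest_one hu.1) _) (mdiff_at (isTest_one hu.1) _)
        rw [← he] at hgr
        have hs := sum_sq_le_inv (metricM_posDef h hxt) (fun i => pd i (u ∘ e.symm) x)
        rw [← hgr] at hs
        have hg0 := gradInner_self_nonneg h u (e.symm x)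
        have hs2 : ∑ i, pd i (u ∘ e.symm) x ^ 2 ≤ τ * gradInner m n φ u u (e.symm x) :=
          hs.trans (mul_le_mul_of_nonneg_right (hτ x hx) hg0)
        have hpd : ∀ i : Fin m, pd i (fun x => b x * u (e.symm x)) x ^ 2 ≤
            2 * pd i (u ∘ e.symm) x ^ 2 + 2 * (B ^ 2 * u (e.symm x) ^ 2) := by
          intro i
          have h2 := pd_mul (i := i) hbd hud
          have h3 : pd i (fun x => b x * u (e.symm x)) x =
              b x * pd i (u ∘ e.symm) x + u (e.symm x) * pd i b x := h2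
          rw [h3]
          have h4 : (b x) ^ 2 ≤ 1 := pow_le_one₀ b.nonneg b.le_one
          have h5 : pd i b x ^ 2 ≤ B ^ 2 := sq_le_sq' (by linarith [neg_abs_le (pd i b x), hB i x])
            ((le_abs_self _).trans (hB i x))
          have h6 : (b x * pd i (u ∘ e.symm) x) ^ 2 ≤ pd i (u ∘ e.symm) x ^ 2 := by
            rw [mul_pow]
            nlinarith [sq_nonneg (pd i (u ∘ e.symm) x)]
          have h7 : (u (e.symm x) * pd i b x) ^ 2 ≤ B ^ 2 * u (e.symm x) ^ 2 := by
            rw [mul_pow, mul_comm]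
            exact mul_le_mul_of_nonneg_right h5 (sq_nonneg _)
          nlinarith [sq_nonneg (b x * pd i (u ∘ e.symm) x - u (e.symm x) * pd i b x)]
        have hsum : ∑ i, pd i (fun x => b x * u (e.symm x)) x ^ 2 ≤
            2 * (τ * gradInner m n φ u u (e.symm x)) + 2 * (m * B ^ 2 * u (e.symm x) ^ 2) := by
          calc ∑ i, pd i (fun x => b x * u (e.symm x)) x ^ 2
              ≤ ∑ i : Fin m, (2 * pd i (u ∘ e.symm) x ^ 2 + 2 * (B ^ 2 * u (e.symm x) ^ 2)) :=
                Finset.sum_le_sum fun i _ => hpd i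
            _ = 2 * ∑ i : Fin m, pd i (u ∘ e.symm) x ^ 2 +
                2 * (m * B ^ 2 * u (e.symm x) ^ 2) := by
                rw [Finset.sum_add_distrib, ← Finset.mul_sum, Finset.sum_const, Finset.card_univ,
                  Fintype.card_fin, nsmul_eq_mul]
                ring
            _ ≤ _ := by linarith
        have h8 := norm_fderiv_sq_le (fun x => b x * u (e.symm x)) x
        have hm0 : (0 : ℝ) ≤ m := Nat.cast_nonneg m
        have h9 : ‖fderiv ℝ (fun x => b x * u (e.symm x)) x‖ ^ 2 ≤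
            (A1 * gradInner m n φ u u (e.symm x) + A2 * u (e.symm x) ^ 2) * c0 := by
          refine (h8.trans (mul_le_mul_of_nonneg_left hsum hm0)).trans (le_of_eq ?_)
          rw [hA1, hA2]
          field_simp
        refine h9.trans (mul_le_mul_of_nonneg_left (hc0le x hx) ?_)
        exact add_nonneg (mul_nonneg hA10 hg0) (by positivity)
    rw [integral_add (hgi.const_mul _) (hui.const_mul _), integral_const_mul,
      integral_const_mul] at h1
    have h2 : 0 ≤ ∫ p, gradInner m n φ u u p ∂μ := dirichlet_self_nonneg h μ u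
    have h3 : 0 ≤ ∫ p, u p ^ 2 ∂μ := integral_nonneg fun p => sq_nonneg _
    have h4 : (∫ p, u p ^ 2 ∂μ) + ∫ p, gradInner m n φ u u p ∂μ ≤ 1 := hu.2
    refine h1.trans (le_trans ?_ (le_max_right _ _))
    have h5 : A1 * ∫ p, gradInner m n φ u u p ∂μ ≤ A1 * 1 :=
      mul_le_mul_of_nonneg_left (by linarith) hA10
    have h6 : A2 * ∫ p, u p ^ 2 ∂μ ≤ A2 * 1 := mul_le_mul_of_nonneg_left (by linarith) hA20
    linarith
  refine ⟨e.symm '' Metric.ball x0 (ρ / 2), ?_, ?_, ?_⟩
  · exact e.isOpen_image_symm_of_subset_target Metric.isOpen_ball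
      ((Metric.ball_subset_closedBall.trans
        (Metric.closedBall_subset_closedBall (half_le_self hρ.le))).trans hρt)
  · exact ⟨x0, Metric.mem_ball_self (half_pos hρ), e.left_inv (mem_chart_source _ p0)⟩
  intro ε hε
  obtain ⟨T0, hT0, hT⟩ := rellich_euclid hK' C (ε := ε / (4 * D)) (by positivity)
  have key : ∀ u ∈ uball m n φ μ, ∃ t ∈ T0, MemLp t 2 volume ∧
      ∫ x, (b x * u (e.symm x) - t x) ^ 2 ≤ ε / (4 * D) := by
    intro u hu
    exact hT _ (hF u hu) (hFs u) (hbound1 u hu) (hbound2 u hu)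
  choose! c hc1 hc2 hc3 using key
  refine ⟨c, hT0.subset (image_subset_iff.2 hc1), ?_⟩
  intro u hu v hv huv
  have hballs : Metric.ball x0 (ρ / 2) ⊆ Metric.closedBall x0 ρ :=
    Metric.ball_subset_closedBall.trans (Metric.closedBall_subset_closedBall (half_le_self hρ.le))
  have hballt : Metric.ball x0 (ρ / 2) ⊆ e.target := hballs.trans hρt
  have huvt : IsTest m (fun p => u p - v p) := isTest_sub hu.1 hv.1
  have hint : Integrable (fun p => (u p - v p) ^ 2) μ := sq_int_test h hμ huvt
  have hFuc := (hF u hu).continuous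
  have hFvc := (hF v hv).continuous
  have hdiff : Integrable (fun x => (b x * u (e.symm x) - b x * v (e.symm x)) ^ 2) := by
    have h1 : Continuous (fun x => b x * u (e.symm x) - b x * v (e.symm x)) := hFuc.sub hFvc
    have h2 : HasCompactSupport (fun x => b x * u (e.symm x) - b x * v (e.symm x)) :=
      (hFc u).sub (hFc v)
    exact (h1.memLp_of_hasCompactSupport (p := 2) h2).integrable_sq
  have hu2 : Integrable (fun x => (b x * u (e.symm x) - c u x) ^ 2) :=
    ((hFuc.memLp_of_hasCompactSupport (p := 2) (hFc u)).sub (hc2 u hu)).integrable_sq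
  have hv2 : Integrable (fun x => (b x * v (e.symm x) - c v x) ^ 2) :=
    ((hFvc.memLp_of_hasCompactSupport (p := 2) (hFc v)).sub (hc2 v hv)).integrable_sq
  have hstep : ∫ x, (b x * u (e.symm x) - b x * v (e.symm x)) ^ 2 ≤ ε / D := by
    calc ∫ x, (b x * u (e.symm x) - b x * v (e.symm x)) ^ 2
        ≤ ∫ x, (2 * (b x * u (e.symm x) - c u x) ^ 2 +
            2 * (b x * v (e.symm x) - c v x) ^ 2) := by
          apply integral_mono hdiff ((hu2.const_mul 2).add (hv2.const_mul 2))
          intro x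
          change (b x * u (e.symm x) - b x * v (e.symm x)) ^ 2 ≤
            2 * (b x * u (e.symm x) - c u x) ^ 2 + 2 * (b x * v (e.symm x) - c v x) ^ 2
          have h1 : c u x = c v x := by rw [huv]
          rw [h1]
          nlinarith [sq_nonneg ((b x * u (e.symm x) - c v x) + (b x * v (e.symm x) - c v x))]
      _ = 2 * (∫ x, (b x * u (e.symm x) - c u x) ^ 2) +
            2 * ∫ x, (b x * v (e.symm x) - c v x) ^ 2 := by
          rw [integral_add (hu2.const_mul 2) (hv2.const_mul 2), integral_const_mul,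
            integral_const_mul]
      _ ≤ 2 * (ε / (4 * D)) + 2 * (ε / (4 * D)) := by
          have h1 := hc3 u hu
          have h2 := hc3 v hv
          linarith
      _ = ε / D := by field_simp; ring
  calc ∫ p in e.symm '' Metric.ball x0 (ρ / 2), (u p - v p) ^ 2 ∂μ
      = ∫ x in Metric.ball x0 (ρ / 2), (u (e.symm x) - v (e.symm x)) ^ 2 *
          √((metricM m n φ p0 x).det) :=
        hμ.setIntegral h p0 Metric.isOpen_ball.measurableSet hballt
          (fun p => (u p - v p) ^ 2)
    _ ≤ ∫ x in Metric.ball x0 (ρ / 2),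
          D * (b x * u (e.symm x) - b x * v (e.symm x)) ^ 2 := by
        apply setIntegral_mono_on ?_ (hdiff.const_mul D).integrableOn
          Metric.isOpen_ball.measurableSet
        · intro x hx
          have h1 : b x = 1 := b.one_of_mem_closedBall (Metric.ball_subset_closedBall hx)
          rw [h1, one_mul, one_mul, mul_comm]
          exact mul_le_mul_of_nonneg_right (hDle x (hballs hx)) (sq_nonneg _)
        · rw [← hμ.integrableOn_iff h p0 Metric.isOpen_ball.measurableSet hballt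
            (fun p => (u p - v p) ^ 2)]
          exact hint.integrableOn
    _ ≤ ∫ x, D * (b x * u (e.symm x) - b x * v (e.symm x)) ^ 2 :=
        setIntegral_le_integral (hdiff.const_mul D) (ae_of_all _ fun x => by positivity)
    _ = D * ∫ x, (b x * u (e.symm x) - b x * v (e.symm x)) ^ 2 := integral_const_mul _ _
    _ ≤ D * (ε / D) := mul_le_mul_of_nonneg_left hstep hD.le
    _ = ε := by field_simp

end main

end Pool.Agent.helper17.MS

namespace Pool.Agent.helper43.MS

open Pool.Agent.helper17.MS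

section R
variable {m n : ℕ} {M : Type*} [TopologicalSpace M] [T2Space M] [SecondCountableTopology M]
  [ChartedSpace (E m) M] [IsManifold 𝓘(ℝ, E m) ∞ M] [MeasurableSpace M] [BorelSpace M]
  {N : Type*} [TopologicalSpace N] [ChartedSpace (E n) N] [IsManifold 𝓘(ℝ, E n) ∞ N]
  [RiemannianBundle (fun q : N => TangentSpace 𝓘(ℝ, E n) q)]
  [IsContMDiffRiemannianBundle 𝓘(ℝ, E n) ∞ (E n) (fun q : N => TangentSpace 𝓘(ℝ, E n) q)]

/-- R2: the theorem of Rellich on compact subsets -/
theorem rellich_local {φ : M → N} (h : IsImm m n φ) {μ : Measure M}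
    (hμ : IsRiemVolume m n φ μ) {K : Set M} (hK : IsCompact K) {ε : ℝ}
    (hε : 0 < ε) :
    ∃ T : Set (M → ℝ), T.Finite ∧
      (∀ t ∈ T, IsTest m t ∧ (∫ p, t p ^ 2 ∂μ) + dirichlet m n φ μ t t ≤ 1) ∧
      ∀ u : M → ℝ, IsTest m u → (∫ p, u p ^ 2 ∂μ) + dirichlet m n φ μ u u ≤ 1 →
        ∃ t ∈ T, (∫ p in K, (u p - t p) ^ 2 ∂μ) ≤ ε := by
  classical
  choose W hWo hWp hW using fun p0 : M => local_class h hμ p0
  obtain ⟨s, -, hs⟩ := hK.elim_nhds_subcover W fun p _ => (hWo p).mem_nhds (hWp p)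
  have hε1 : 0 < ε / (s.card + 1) := by positivity
  choose c hcf hc using fun p0 : M => hW p0 (ε / (s.card + 1)) hε1
  set Ψ : (M → ℝ) → (s → (E m → ℝ)) := fun u p => c p u with hΨ
  have hfin : (Ψ '' uball m n φ μ).Finite := by
    refine (Set.Finite.pi fun p : s => hcf p).subset ?_
    rintro _ ⟨u, hu, rfl⟩
    rw [Set.mem_pi]
    intro p _
    exact ⟨u, hu, rfl⟩
  obtain ⟨T, hTsub, hT⟩ := Set.SurjOn.exists_bijOn_subset (Set.surjOn_image Ψ (uball m n φ μ))
  refine ⟨T, hT.finite_iff_finite.2 hfin, fun t ht => hTsub ht, ?_⟩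
  intro u hu1 hu2
  have hu : u ∈ uball m n φ μ := ⟨hu1, hu2⟩
  obtain ⟨t, htT, ht⟩ := hT.surjOn ⟨u, hu, rfl⟩
  refine ⟨t, htT, ?_⟩
  have htu : t ∈ uball m n φ μ := hTsub htT
  have hint : Integrable (fun p => (u p - t p) ^ 2) μ := sq_int_test h hμ (isTest_sub hu1 htu.1)
  have hW' : ∀ p ∈ s, ∫ p' in W p, (u p' - t p') ^ 2 ∂μ ≤ ε / (s.card + 1) := by
    intro p hp
    exact hc p u hu t htu (congrFun ht ⟨p, hp⟩).symm
  have hcard : (0 : ℝ) ≤ s.card := Nat.cast_nonneg _
  calc ∫ p in K, (u p - t p) ^ 2 ∂μ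
      = ∫ p, K.indicator (fun p => (u p - t p) ^ 2) p ∂μ :=
        (integral_indicator hK.measurableSet).symm
    _ ≤ ∫ p, ∑ q ∈ s, (W q).indicator (fun p => (u p - t p) ^ 2) p ∂μ := by
        apply integral_mono (hint.indicator hK.measurableSet)
          (integrable_finset_sum _ fun q _ => hint.indicator (hWo q).measurableSet)
        intro p
        by_cases hp : p ∈ K
        · have h1 := hs hp
          rw [mem_iUnion₂] at h1
          obtain ⟨q, hq, hpq⟩ := h1
          simp only [indicator_of_mem hp]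
          calc (u p - t p) ^ 2 = (W q).indicator (fun p => (u p - t p) ^ 2) p := by
                rw [indicator_of_mem hpq]
            _ ≤ _ := Finset.single_le_sum
                (f := fun q => (W q).indicator (fun p => (u p - t p) ^ 2) p)
                (fun q _ => indicator_nonneg (fun p _ => sq_nonneg _) p) hq
        · simp only [indicator_of_notMem hp]
          exact Finset.sum_nonneg fun q _ => indicator_nonneg (fun p _ => sq_nonneg _) p
    _ = ∑ q ∈ s, ∫ p in W q, (u p - t p) ^ 2 ∂μ := by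
        rw [integral_finset_sum _ fun q _ => hint.indicator (hWo q).measurableSet]
        exact Finset.sum_congr rfl fun q _ => integral_indicator (hWo q).measurableSet
    _ ≤ ∑ q ∈ s, ε / (s.card + 1) := Finset.sum_le_sum hW'
    _ = s.card * (ε / (s.card + 1)) := by rw [Finset.sum_const, nsmul_eq_mul]
    _ ≤ ε := by
        rw [mul_div_assoc', div_le_iff₀ (by positivity)]
        nlinarith

end R

end Pool.Agent.helper43.MS
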