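import Pool.Agent.helper43.MS.Defs
import Pool.Agent.helper43.MS.Pd
import Pool.Agent.helper91.MS.M0
import Pool.Agent.helper30.MS.V

/-!
# Elementary properties of the Dirichlet form on test functions
-/

open Bundle Manifold MeasureTheory Set Filter Topology
open scoped ContDiff ENNReal

namespace Pool.Agent.helper17.MS

open Pool.Agent.helper43.MS

section
variable {m n : ℕ} {M : Type*} [TopologicalSpace M] [ChartedSpace (E m) M]

theorem diffM_add {u v : M → ℝ} {p : M} (hu : MDifferentiableAt 𝓘(ℝ, E m) 𝓘(ℝ, ℝ) u p)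
    (hv : MDifferentiableAt 𝓘(ℝ, E m) 𝓘(ℝ, ℝ) v p) (i : Fin m) :
    diffM m (u + v) p i = diffM m u p i + diffM m v p i := by
  unfold diffM
  rw [mfderiv_add hu hv]
  rfl

theorem diffM_smul {u : M → ℝ} {p : M} (hu : MDifferentiableAt 𝓘(ℝ, E m) 𝓘(ℝ, ℝ) u p) (c : ℝ)
    (i : Fin m) : diffM m (c • u) p i = c * diffM m u p i := by
  unfold diffM
  rw [const_smul_mfderiv hu c]
  rfl

theorem diffM_zero_of {u : M → ℝ} {p : M} (hu : p ∉ tsupport u) (i : Fin m) :
    diffM m u p i = 0 := by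
  unfold diffM
  rw [notMem_tsupport_iff_eventuallyEq] at hu
  rw [hu.mfderiv_eq]
  have h : mfderiv 𝓘(ℝ, E m) 𝓘(ℝ, ℝ) (0 : M → ℝ) p = 0 := mfderiv_const
  rw [h]
  rfl

variable {N : Type*} [TopologicalSpace N] [ChartedSpace (E n) N]
  [RiemannianBundle (fun q : N => TangentSpace 𝓘(ℝ, E n) q)]

theorem gradInner_add_left (φ : M → N) {u u' v : M → ℝ} {p : M}
    (hu : MDifferentiableAt 𝓘(ℝ, E m) 𝓘(ℝ, ℝ) u p)
    (hu' : MDifferentiableAt 𝓘(ℝ, E m) 𝓘(ℝ, ℝ) u' p) :
    gradInner m n φ (u + u') v p = gradInner m n φ u v p + gradInner m n φ u' v p := by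
  unfold gradInner
  rw [← Finset.sum_add_distrib]
  refine Finset.sum_congr rfl fun i _ => ?_
  rw [← Finset.sum_add_distrib]
  refine Finset.sum_congr rfl fun j _ => ?_
  rw [diffM_add hu hu']
  ring

theorem gradInner_smul_left (φ : M → N) {u v : M → ℝ} {p : M} (c : ℝ)
    (hu : MDifferentiableAt 𝓘(ℝ, E m) 𝓘(ℝ, ℝ) u p) :
    gradInner m n φ (c • u) v p = c * gradInner m n φ u v p := by
  unfold gradInner
  rw [Finset.mul_sum]
  refine Finset.sum_congr rfl fun i _ => ?_
  rw [Finset.mul_sum]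
  refine Finset.sum_congr rfl fun j _ => ?_
  rw [diffM_smul hu]
  ring

theorem gram_comm (φ : M → N) (p : M) : (gram m n φ p).transpose = gram m n φ p := by
  ext i j
  simp only [Matrix.transpose_apply, gram]
  exact real_inner_comm _ _

theorem gradInner_comm (φ : M → N) (u v : M → ℝ) (p : M) :
    gradInner m n φ u v p = gradInner m n φ v u p := by
  unfold gradInner
  rw [Finset.sum_comm]
  refine Finset.sum_congr rfl fun i _ => Finset.sum_congr rfl fun j _ => ?_
  have h : (gram m n φ p)⁻¹ j i = (gram m n φ p)⁻¹ i j := by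
    have h1 : ((gram m n φ p)⁻¹).transpose = (gram m n φ p)⁻¹ := by
      rw [Matrix.transpose_nonsing_inv, gram_comm]
    conv_rhs => rw [← h1]
    rfl
  rw [h]
  ring

theorem gradInner_zero_of {φ : M → N} {u v : M → ℝ} {p : M} (hu : p ∉ tsupport u) :
    gradInner m n φ u v p = 0 := by
  unfold gradInner
  simp [diffM_zero_of hu]

theorem hasCompactSupport_gradInner (φ : M → N) {u : M → ℝ} (v : M → ℝ)
    (hu : HasCompactSupport u) : HasCompactSupport (gradInner m n φ u v) := by
  refine hu.of_isClosed_subset (isClosed_tsupport _) ?_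
  refine closure_minimal ?_ (isClosed_tsupport _)
  intro p hp
  by_contra h
  exact hp (gradInner_zero_of h)

end

section
variable {m n : ℕ} {M : Type*} [TopologicalSpace M] [ChartedSpace (E m) M]
  [IsManifold 𝓘(ℝ, E m) ∞ M]
  {N : Type*} [TopologicalSpace N] [ChartedSpace (E n) N] [IsManifold 𝓘(ℝ, E n) ∞ N]
  [RiemannianBundle (fun q : N => TangentSpace 𝓘(ℝ, E n) q)]
  [IsContMDiffRiemannianBundle 𝓘(ℝ, E n) ∞ (E n) (fun q : N => TangentSpace 𝓘(ℝ, E n) q)]

theorem gradInner_self_nonneg {φ : M → N} (h : IsImm m n φ) (u : M → ℝ) (p : M) :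
    0 ≤ gradInner m n φ u u p := by
  have h1 := (gram_posDef h p).inv.posSemidef.dotProduct_mulVec_nonneg (diffM m u p)
  refine h1.trans_eq ?_
  simp only [dotProduct, Matrix.mulVec, gradInner, Finset.mul_sum, star_trivial]
  refine Finset.sum_congr rfl fun i _ => Finset.sum_congr rfl fun j _ => ?_
  ring

theorem mdiff_at {u : M → ℝ} (hu : ContMDiff 𝓘(ℝ, E m) 𝓘(ℝ, ℝ) 1 u) (p : M) :
    MDifferentiableAt 𝓘(ℝ, E m) 𝓘(ℝ, ℝ) u p :=
  (hu p).mdifferentiableAt (by norm_num)

theorem one_le_top' : (1 : WithTop ℕ∞) ≤ ((⊤ : ℕ∞) : WithTop ℕ∞) := by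
  exact_mod_cast (le_top : (1 : ℕ∞) ≤ ⊤)

theorem contDiffOn_chart {k : WithTop ℕ∞} {u : M → ℝ} (hk : k ≤ ((⊤ : ℕ∞) : WithTop ℕ∞))
    (hu : ContMDiff 𝓘(ℝ, E m) 𝓘(ℝ, ℝ) k u) (p : M) :
    ContDiffOn ℝ k (u ∘ (chartAt (E m) p).symm) (chartAt (E m) p).target := by
  rw [← contMDiffOn_iff_contDiffOn]
  have h1 : ContMDiffOn 𝓘(ℝ, E m) 𝓘(ℝ, E m) k (chartAt (E m) p).symm
      (chartAt (E m) p).target :=
    (contMDiffOn_chart_symm (I := 𝓘(ℝ, E m)) (x := p) (n := ((⊤ : ℕ∞) : WithTop ℕ∞))).of_le hk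
  exact hu.comp_contMDiffOn h1

theorem inv_entry_continuousOn {φ : M → N} (h : IsImm m n φ) (p : M) (i j : Fin m) :
    ContinuousOn (fun x => (metricM m n φ p x)⁻¹ i j) (chartAt (E m) p).target := by
  intro x hx
  have hG : ContinuousWithinAt (fun x => metricM m n φ p x) (chartAt (E m) p).target x := by
    exact tendsto_pi_nhds.2 fun i => tendsto_pi_nhds.2 fun j =>
      (metricM_contDiffOn h p i j).continuousOn x hx
  have hd : (metricM m n φ p x).det ≠ 0 := (metricM_posDef h hx).det_pos.ne'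
  have hdet : ContinuousWithinAt (fun x => (metricM m n φ p x).det) (chartAt (E m) p).target x :=
    ContinuousAt.comp_continuousWithinAt (g := Matrix.det)
      (Continuous.matrix_det continuous_id).continuousAt hG
  have hadj : ContinuousWithinAt (fun x => (metricM m n φ p x).adjugate)
      (chartAt (E m) p).target x :=
    ContinuousAt.comp_continuousWithinAt (g := Matrix.adjugate)
      (Continuous.matrix_adjugate continuous_id).continuousAt hG
  have he : ∀ x, (metricM m n φ p x)⁻¹ i j =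
      ((metricM m n φ p x).det)⁻¹ * (metricM m n φ p x).adjugate i j := by
    intro x
    rw [Matrix.inv_def]
    simp
  simp only [he]
  have hij : ContinuousWithinAt (fun x => (metricM m n φ p x).adjugate i j)
      (chartAt (E m) p).target x :=
    tendsto_pi_nhds.1 (tendsto_pi_nhds.1 hadj i) j
  exact (hdet.inv₀ hd).mul hij

theorem continuous_gradInner {φ : M → N} (h : IsImm m n φ) {u v : M → ℝ}
    (hu : ContMDiff 𝓘(ℝ, E m) 𝓘(ℝ, ℝ) 1 u) (hv : ContMDiff 𝓘(ℝ, E m) 𝓘(ℝ, ℝ) 1 v) :
    Continuous (gradInner m n φ u v) := by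
  rw [continuous_iff_continuousAt]
  intro p
  set e := chartAt (E m) p with he
  have hF : ContinuousOn (fun x => ∑ i, ∑ j, (metricM m n φ p x)⁻¹ i j *
      pd i (u ∘ e.symm) x * pd j (v ∘ e.symm) x) e.target := by
    apply continuousOn_finsetSum
    intro i _
    apply continuousOn_finsetSum
    intro j _
    have h1 := inv_entry_continuousOn h p i j
    have h2 : ContinuousOn (pd i (u ∘ e.symm)) e.target :=
      (contDiffOn_pd e.open_target (contDiffOn_chart one_le_top' hu p)
        (by norm_num)).continuousOn (n := 0)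
    have h3 : ContinuousOn (pd j (v ∘ e.symm)) e.target :=
      (contDiffOn_pd e.open_target (contDiffOn_chart one_le_top' hv p)
        (by norm_num)).continuousOn (n := 0)
    exact (h1.mul h2).mul h3
  have hG : ContinuousAt (fun p' => ∑ i, ∑ j, (metricM m n φ p (e p'))⁻¹ i j *
      pd i (u ∘ e.symm) (e p') * pd j (v ∘ e.symm) (e p')) p := by
    have h1 : ContinuousAt e p := e.continuousAt (mem_chart_source _ p)
    have h2 : e p ∈ e.target := e.map_source (mem_chart_source _ p)
    exact ContinuousAt.comp (f := e)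
      (g := fun x => ∑ i, ∑ j, (metricM m n φ p x)⁻¹ i j *
      pd i (u ∘ e.symm) x * pd j (v ∘ e.symm) x) (hF.continuousAt (e.open_target.mem_nhds h2)) h1
  refine hG.congr ?_
  filter_upwards [e.open_source.mem_nhds (mem_chart_source _ p)] with p' hp'
  have h1 := gradInner_chart h (p := p) (x := e p') (e.map_source hp') (u := u) (v := v)
    (mdiff_at hu _) (mdiff_at hv _)
  rw [← he, e.left_inv hp'] at h1
  exact h1.symm

variable [MeasurableSpace M] [BorelSpace M]

theorem integrable_gradInner {φ : M → N} (h : IsImm m n φ) {μ : Measure M}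
    (hμ : IsRiemVolume m n φ μ) {u v : M → ℝ} (hu : ContMDiff 𝓘(ℝ, E m) 𝓘(ℝ, ℝ) 1 u)
    (hv : ContMDiff 𝓘(ℝ, E m) 𝓘(ℝ, ℝ) 1 v) (huc : HasCompactSupport u) :
    Integrable (gradInner m n φ u v) μ := by
  have := hμ.isLocallyFinite h
  exact (continuous_gradInner h hu hv).integrable_of_hasCompactSupport
    (hasCompactSupport_gradInner φ v huc)

theorem dirichlet_self_nonneg {φ : M → N} (h : IsImm m n φ) (μ : Measure M) (u : M → ℝ) :
    0 ≤ dirichlet m n φ μ u u :=
  integral_nonneg fun p => gradInner_self_nonneg h u p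

theorem dirichlet_comm (φ : M → N) (μ : Measure M) (u v : M → ℝ) :
    dirichlet m n φ μ u v = dirichlet m n φ μ v u := by
  unfold dirichlet
  simp only [gradInner_comm φ u v]

theorem isTest_one {u : M → ℝ} (hu : IsTest m u) : ContMDiff 𝓘(ℝ, E m) 𝓘(ℝ, ℝ) 1 u :=
  hu.1.of_le (by norm_num)

theorem dirichlet_add_left {φ : M → N} (h : IsImm m n φ) {μ : Measure M}
    (hμ : IsRiemVolume m n φ μ) {u u' v : M → ℝ} (hu : IsTest m u) (hu' : IsTest m u')
    (hv : IsTest m v) :
    dirichlet m n φ μ (u + u') v = dirichlet m n φ μ u v + dirichlet m n φ μ u' v := by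
  unfold dirichlet
  rw [← integral_add (integrable_gradInner h hμ (isTest_one hu) (isTest_one hv) hu.2)
    (integrable_gradInner h hμ (isTest_one hu') (isTest_one hv) hu'.2)]
  congr 1
  funext p
  exact gradInner_add_left φ (mdiff_at (isTest_one hu) p) (mdiff_at (isTest_one hu') p)

theorem dirichlet_smul_left {φ : M → N} {μ : Measure M} {u v : M → ℝ} (c : ℝ)
    (hu : IsTest m u) : dirichlet m n φ μ (c • u) v = c * dirichlet m n φ μ u v := by
  unfold dirichlet
  rw [← integral_const_mul]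
  congr 1
  funext p
  exact gradInner_smul_left φ c (mdiff_at (isTest_one hu) p)

end

end Pool.Agent.helper17.MS
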