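import Pool.Agent.helper17.MS.Grad
import Pool.Agent.helper91.MS.A
import Pool.Agent.helper43.MS.S1

/-!
# Module S2: from compactness of the unit ball to discreteness of the spectrum
-/

open Bundle Manifold MeasureTheory Set Filter Topology
open scoped ContDiff ENNReal

namespace Pool.Agent.helper17.MS

open Pool.Agent.helper43.MS

section
variable {m n : ℕ} {M : Type*} [TopologicalSpace M] [ChartedSpace (E m) M]

/-- the space of test functions -/
def TestSub (m : ℕ) (M : Type*) [TopologicalSpace M] [ChartedSpace (E m) M] :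
    Submodule ℝ (M → ℝ) where
  carrier := {u | IsTest m u}
  add_mem' := by
    intro u v hu hv
    exact ⟨hu.1.add hv.1, hu.2.add hv.2⟩
  zero_mem' := ⟨contMDiff_const, HasCompactSupport.zero⟩
  smul_mem' := by
    intro c u hu
    refine ⟨(contMDiff_const (I := 𝓘(ℝ, E m)) (I' := 𝓘(ℝ, ℝ)) (c := c)).smul hu.1, ?_⟩
    exact HasCompactSupport.smul_left (f := fun _ => c) hu.2

theorem isTest_sub {u v : M → ℝ} (hu : IsTest m u) (hv : IsTest m v) :
    IsTest m (fun p => u p - v p) := (TestSub m M).sub_mem hu hv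

variable [MeasurableSpace M] [BorelSpace M]

theorem memLp_test {μ : Measure M} [IsLocallyFiniteMeasure μ] {u : M → ℝ} (hu : IsTest m u) :
    MemLp u 2 μ :=
  hu.1.continuous.memLp_of_hasCompactSupport hu.2

variable (m) in
/-- the class of a test function -/
noncomputable def Jmap (μ : Measure M) [IsLocallyFiniteMeasure μ] :
    TestSub m M →ₗ[ℝ] Lp ℝ 2 μ where
  toFun u := (memLp_test (m := m) u.2).toLp u.1
  map_add' u v := MemLp.toLp_add (memLp_test (m := m) u.2) (memLp_test (m := m) v.2)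
  map_smul' c u := MemLp.toLp_const_smul c (memLp_test (m := m) u.2)

theorem Jmap_coe {μ : Measure M} [IsLocallyFiniteMeasure μ] (u : TestSub m M) :
    (Jmap m μ u : M → ℝ) =ᵐ[μ] u.1 :=
  MemLp.coeFn_toLp (memLp_test (m := m) u.2)

theorem inner_eq {μ : Measure M} (f g : Lp ℝ 2 μ) : inner ℝ f g = ∫ p, f p * g p ∂μ := by
  rw [L2.inner_def]
  congr 1
  funext p
  simp [mul_comm]

theorem inner_Jmap {μ : Measure M} [IsLocallyFiniteMeasure μ] (f : Lp ℝ 2 μ) (v : TestSub m M) :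
    inner ℝ f (Jmap m μ v) = ∫ p, f p * v.1 p ∂μ := by
  rw [inner_eq]
  apply integral_congr_ae
  filter_upwards [Jmap_coe (μ := μ) v] with p hp
  rw [hp]

theorem norm_Jmap_sq {μ : Measure M} [IsLocallyFiniteMeasure μ] (v : TestSub m M) :
    ‖Jmap m μ v‖ ^ 2 = ∫ p, v.1 p ^ 2 ∂μ := by
  rw [← real_inner_self_eq_norm_sq (Jmap m μ v), inner_Jmap]
  apply integral_congr_ae
  filter_upwards [Jmap_coe (μ := μ) v] with p hp
  rw [hp, sq]

end

end Pool.Agent.helper17.MS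

namespace Pool.Agent.helper43.MS

open Pool.Agent.helper17.MS

section S
variable {m n : ℕ} {M : Type*} [TopologicalSpace M] [T2Space M] [SecondCountableTopology M]
  [ChartedSpace (E m) M] [IsManifold 𝓘(ℝ, E m) ∞ M] [MeasurableSpace M] [BorelSpace M]
  {N : Type*} [TopologicalSpace N] [ChartedSpace (E n) N] [IsManifold 𝓘(ℝ, E n) ∞ N]
  [RiemannianBundle (fun q : N => TangentSpace 𝓘(ℝ, E n) q)]
  [IsContMDiffRiemannianBundle 𝓘(ℝ, E n) ∞ (E n) (fun q : N => TangentSpace 𝓘(ℝ, E n) q)]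

/-- the Dirichlet form on test functions -/
noncomputable def qform {φ : M → N} (h : IsImm m n φ) {μ : Measure M}
    (hμ : IsRiemVolume m n φ μ) : TestSub m M →ₗ[ℝ] TestSub m M →ₗ[ℝ] ℝ :=
  LinearMap.mk₂ ℝ (fun u v : TestSub m M => dirichlet m n φ μ u.1 v.1)
    (fun u u' v => dirichlet_add_left (n := n) h hμ u.2 u'.2 v.2)
    (fun c u v => dirichlet_smul_left (n := n) (φ := φ) (μ := μ) (v := v.1) c u.2)
    (fun u v v' => by
      have h1 := dirichlet_add_left (n := n) h hμ v.2 v'.2 u.2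
      rw [dirichlet_comm φ μ _ u.1, dirichlet_comm φ μ _ u.1, dirichlet_comm φ μ _ u.1] at h1
      exact h1)
    (fun c u v => by
      have h1 := dirichlet_smul_left (n := n) (φ := φ) (μ := μ) (v := u.1) c v.2
      rw [dirichlet_comm φ μ _ u.1, dirichlet_comm φ μ _ u.1] at h1
      exact h1)

theorem qform_apply {φ : M → N} (h : IsImm m n φ) {μ : Measure M}
    (hμ : IsRiemVolume m n φ μ) (u v : TestSub m M) :
    qform h hμ u v = dirichlet m n φ μ u.1 v.1 := rfl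

/-- S2 -/
theorem discrete_of_compact {φ : M → N} (h : IsImm m n φ) {μ : Measure M}
    (hμ : IsRiemVolume m n φ μ)
    (htb : ∀ ε : ℝ, 0 < ε → ∃ T : Set (M → ℝ), T.Finite ∧ (∀ t ∈ T, IsTest m t) ∧
      ∀ u : M → ℝ, IsTest m u → (∫ p, u p ^ 2 ∂μ) + dirichlet m n φ μ u u ≤ 1 →
        ∃ t ∈ T, (∫ p, (u p - t p) ^ 2 ∂μ) ≤ ε) :
    HasDiscreteSpectrum m n φ μ := by
  classical
  have hlf := hμ.isLocallyFinite h
  have hdense : DenseRange (Jmap m μ) := by
    intro f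
    rw [Metric.mem_closure_iff]
    intro ε hε
    obtain ⟨u, hu, hu2⟩ := test_dense h hμ f (half_pos hε)
    refine ⟨Jmap m μ ⟨u, hu⟩, ⟨_, rfl⟩, ?_⟩
    rw [dist_comm, Lp.dist_def]
    have h1 : eLpNorm (⇑(Jmap m μ ⟨u, hu⟩) - ⇑f) 2 μ = eLpNorm (fun p => u p - f p) 2 μ := by
      apply eLpNorm_congr_ae
      filter_upwards [Jmap_coe (μ := μ) (⟨u, hu⟩ : TestSub m M)] with p hp
      simp only [Pi.sub_apply, hp]
    rw [h1]
    have h2 := ENNReal.toReal_mono ENNReal.ofReal_ne_top hu2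
    rw [ENNReal.toReal_ofReal (half_pos hε).le] at h2
    linarith
  have htb' : TotallyBounded (Jmap m μ '' {v | ‖Jmap m μ v‖ ^ 2 + qform h hμ v v ≤ 1}) := by
    rw [Metric.totallyBounded_iff]
    intro ε hε
    obtain ⟨T, hT, hT1, hT2⟩ := htb ((ε / 2) ^ 2) (by positivity)
    refine ⟨(fun t => if ht : IsTest m t then Jmap m μ ⟨t, ht⟩ else 0) '' T, hT.image _, ?_⟩
    rintro _ ⟨v, hv, rfl⟩
    rw [mem_setOf_eq, norm_Jmap_sq] at hv
    obtain ⟨t, ht, ht2⟩ := hT2 v.1 v.2 hv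
    rw [mem_iUnion₂]
    refine ⟨Jmap m μ ⟨t, hT1 t ht⟩, ⟨t, ht, by simp only [dif_pos (hT1 t ht)]⟩, ?_⟩
    rw [Metric.mem_ball, dist_eq_norm, ← map_sub]
    have h1 : ‖Jmap m μ (v - ⟨t, hT1 t ht⟩)‖ ^ 2 ≤ (ε / 2) ^ 2 := by
      rw [norm_Jmap_sq]
      exact ht2
    have h2 := abs_le_of_sq_le_sq' h1 (by positivity)
    linarith [h2.2]
  obtain ⟨s, lam, h1, h2, h3, h4⟩ := abstract_spectral (Jmap m μ) (qform h hμ)
    (fun u v => dirichlet_comm φ μ u.1 v.1) (fun u => dirichlet_self_nonneg h μ u.1) hdense htb'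
  refine ⟨s, lam, h1, h2, h3, ?_⟩
  intro f hf
  obtain ⟨u, hu1, hu2, hu3⟩ := h4 f hf
  refine ⟨fun k => (u k).1, fun k => (u k).2, ?_, hu2, ?_⟩
  · rw [Lp.tendsto_Lp_iff_tendsto_eLpNorm'] at hu1
    refine hu1.congr fun k => ?_
    apply eLpNorm_congr_ae
    filter_upwards [Jmap_coe (μ := μ) (u k)] with p hp
    simp only [Pi.sub_apply, hp]
  · intro v hv
    have := hu3 ⟨v, hv⟩
    rw [inner_Jmap] at this
    exact this

end S

end Pool.Agent.helper43.MS
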